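import Pool.Agent.Results.MP_ec7c5f_an.ContinuousLines

/-!
# Open sets which every nonconstant path of lines meets in infinite length
-/

set_option autoImplicit false

open MeasureTheory Set Filter Topology
open scoped ENNReal Real

namespace Pool.Agent.Y574.CL

open Pool.Agent.Results.MP_ec7c5f_an.ContinuousLines

/-- the stretched copy of the set `SS` -/
def ST (M η : ℝ) : Set (ℝ × ℝ) := {p | (p.1 / M, p.2 / η) ∈ SS}

theorem volume_ST (M η : ℝ) (hM : 0 < M) (hη : 0 < η) :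
    volume (ST M η) = ENNReal.ofReal (M * η) * volume SS := by
  let f : (ℝ × ℝ) →ₗ[ℝ] (ℝ × ℝ) :=
    LinearMap.prodMap (LinearMap.mulLeft ℝ M⁻¹) (LinearMap.mulLeft ℝ η⁻¹)
  have hdet : LinearMap.det f = M⁻¹ * η⁻¹ := by
    rw [LinearMap.det_prodMap]
    simp
  have hf : LinearMap.det f ≠ 0 := by
    rw [hdet]
    positivity
  have h1 : ST M η = f ⁻¹' SS := by
    ext p
    simp [ST, f, div_eq_inv_mul]
  rw [h1, Measure.addHaar_preimage_linearMap volume hf, hdet]
  congr 2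
  rw [abs_of_pos (by positivity), mul_inv, inv_inv, inv_inv]

theorem core' (M η : ℝ) (hM : 0 < M) (hη : 0 < η) (m b : ℝ → ℝ) (α β : ℝ)
    (hm : ContinuousOn m (Ioo α β)) (hb : ContinuousOn b (Ioo α β))
    (hno : ∀ t ∈ Ioo α β, ¬ ∃ x₀ : ℝ, ∀ x ∈ Icc x₀ (x₀ + M), (x, m t * x + b t) ∈ ST M η) :
    ∀ t ∈ Ioo α β, ∀ t' ∈ Ioo α β, m t = m t' ∧ b t = b t' := by
  have h := core (fun t => m t * (M / η)) (fun t => b t / η) α β (hm.mul continuousOn_const)
    (hb.div_const _) ?_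
  · intro t ht t' ht'
    obtain ⟨h1, h2⟩ := h t ht t' ht'
    have h3 : M / η ≠ 0 := by positivity
    exact ⟨mul_right_cancel₀ h3 h1, (div_left_inj' hη.ne').1 h2⟩
  · rintro t ht ⟨x₀, hx₀⟩
    apply hno t ht
    refine ⟨M * x₀, fun x hx => ?_⟩
    have h1 := hx₀ (x / M) ⟨by rw [le_div_iff₀ hM]; linarith [hx.1],
      by rw [div_le_iff₀ hM]; linarith [hx.2]⟩
    have h2 : (m t * x + b t) / η = m t * (M / η) * (x / M) + b t / η := by
      field_simp
    change (x / M, (m t * x + b t) / η) ∈ SS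
    rw [h2]
    exact h1

/-- the union of the stretched copies -/
def TT (η : ℕ → ℝ) : Set (ℝ × ℝ) := ⋃ k : ℕ, ST (k + 1) (η k)

/-- the planar set -/
def EP (η : ℕ → ℝ) : Set Plane := toPair ⁻¹' (TT η ∪ Prod.swap ⁻¹' TT η)

theorem measurableSet_ST (M η : ℝ) : MeasurableSet (ST M η) := by
  have h : Measurable fun p : ℝ × ℝ => (p.1 / M, p.2 / η) := by fun_prop
  exact h measurableSet_SS

theorem measurableSet_TT (η : ℕ → ℝ) : MeasurableSet (TT η) :=
  MeasurableSet.iUnion fun _ => measurableSet_ST _ _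

theorem measurableSet_EP (η : ℕ → ℝ) : MeasurableSet (EP η) :=
  measurePreserving_toPair.measurable
    ((measurableSet_TT η).union (measurable_swap (measurableSet_TT η)))

theorem exists_heights (ε : ℝ≥0∞) (hε : ε ≠ 0) :
    ∃ η : ℕ → ℝ, (∀ k, 0 < η k) ∧ volume (EP η) < ε := by
  have hε2 : ε / 2 ≠ 0 := (ENNReal.half_pos hε).ne'
  obtain ⟨δ, hδ, hsum⟩ := ENNReal.exists_pos_sum_of_countable' hε2 ℕ
  have hV : volume SS ≠ ∞ := volume_SS_lt_top.ne
  choose n hn0 hn using fun k => ENNReal.exists_nnreal_pos_mul_lt hV (hδ k).ne'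
  refine ⟨fun k => (n k : ℝ) / (k + 1), fun k => ?_, ?_⟩
  · have h1 : (0 : ℝ) < n k := by exact_mod_cast hn0 k
    positivity
  set η : ℕ → ℝ := fun k => (n k : ℝ) / (k + 1) with hη
  have hT : volume (TT η) < ε / 2 := by
    refine (measure_iUnion_le _).trans_lt (lt_of_le_of_lt ?_ hsum)
    refine ENNReal.tsum_le_tsum fun k => ?_
    have h1 : (0 : ℝ) < n k := by exact_mod_cast hn0 k
    have hk : (0 : ℝ) < (k : ℝ) + 1 := by positivity
    rw [volume_ST _ _ hk (by simp only [hη]; positivity)]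
    have h2 : ((k : ℝ) + 1) * η k = n k := by
      simp only [hη]
      field_simp
    rw [h2, ENNReal.ofReal_coe_nnreal]
    exact (hn k).le
  have h1 : volume (EP η) = volume (TT η ∪ Prod.swap ⁻¹' TT η) :=
    measurePreserving_toPair.measure_preimage
      ((measurableSet_TT η).union (measurable_swap (measurableSet_TT η))).nullMeasurableSet
  rw [h1]
  refine (measure_union_le _ _).trans_lt ?_
  have h2 : volume (Prod.swap ⁻¹' TT η) = volume (TT η) := by
    have : MeasurePreserving (Prod.swap : ℝ × ℝ → ℝ × ℝ) volume volume :=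
      Measure.measurePreserving_swap
    exact this.measure_preimage (measurableSet_TT η).nullMeasurableSet
  rw [h2]
  have h3 := ENNReal.add_lt_add hT hT
  rwa [ENNReal.add_halves] at h3

/-- the point of a line in the chart `i` -/
noncomputable def pt (i : Fin 2) (m b x : ℝ) : Plane :=
  WithLp.toLp 2 (fun j => if j = i then m * x + b else x)

theorem pt_self (i : Fin 2) (m b x : ℝ) : pt i m b x i = m * x + b := by
  simp [pt]

theorem pt_other (i : Fin 2) (m b x : ℝ) : pt i m b x (1 - i) = x := by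
  have : (1 - i) ≠ i := by
    fin_cases i <;> decide
  simp [pt, this]

theorem continuous_pt (i : Fin 2) :
    Continuous (fun q : (ℝ × ℝ) × ℝ => pt i q.1.1 q.1.2 q.2) := by
  unfold pt
  refine (PiLp.continuous_toLp 2 _).comp (continuous_pi fun j => ?_)
  by_cases h : j = i
  · simp only [h, if_true]
    fun_prop
  · simp only [h, if_false]
    fun_prop

theorem le_hausdorff (i : Fin 2) (T : Set Plane) (m b x₀ M : ℝ) (hM : 0 ≤ M)
    (h : ∀ x ∈ Icc x₀ (x₀ + M), pt i m b x ∈ T) : ENNReal.ofReal M ≤ μH[1] T := by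
  have hsub : segment ℝ (pt i m b x₀) (pt i m b (x₀ + M)) ⊆ T := by
    rintro z ⟨u, v, hu, hv, huv, rfl⟩
    have e : u • pt i m b x₀ + v • pt i m b (x₀ + M) = pt i m b (x₀ + v * M) := by
      have hu' : u = 1 - v := by linarith
      subst hu'
      ext j
      simp only [pt, PiLp.add_apply, PiLp.smul_apply, smul_eq_mul]
      split_ifs <;> ring
    rw [e]
    apply h
    have h1 : v * M ≤ 1 * M := mul_le_mul_of_nonneg_right (by linarith) hM
    have h2 : 0 ≤ v * M := mul_nonneg hv hM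
    exact ⟨by linarith, by linarith⟩
  refine le_trans ?_ (measure_mono hsub)
  rw [hausdorffMeasure_segment, edist_dist]
  apply ENNReal.ofReal_le_ofReal
  rw [dist_comm, EuclideanSpace.dist_eq]
  apply Real.le_sqrt_of_sq_le
  have h1 : ∀ j, dist ((pt i m b (x₀ + M)).ofLp j) ((pt i m b x₀).ofLp j) ^ 2 =
      ((pt i m b (x₀ + M)).ofLp j - (pt i m b x₀).ofLp j) ^ 2 := by
    intro j
    rw [Real.dist_eq, sq_abs]
  simp only [h1]
  have h2 := Finset.single_le_sum
    (f := fun j => ((pt i m b (x₀ + M)).ofLp j - (pt i m b x₀).ofLp j) ^ 2)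
    (fun j _ => sq_nonneg _) (Finset.mem_univ (1 - i))
  simp only [pt_other] at h2
  refine le_trans (le_of_eq ?_) h2
  ring

theorem pt_mem (i : Fin 2) (l : LineSpace) (hl : l ∈ chart i) (x : ℝ) :
    pt i (slope i l) (icpt i l) x ∈ pointSet l := by
  rw [mem_pointSet i l hl, pt_self, pt_other]

/-- a long segment in the chart `i` -/
def Seg (U : Set Plane) (i : Fin 2) (l : LineSpace) (M : ℝ) : Prop :=
  ∃ x₀ : ℝ, ∀ x ∈ Icc x₀ (x₀ + M), pt i (slope i l) (icpt i l) x ∈ U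

theorem le_of_seg {U : Set Plane} {i : Fin 2} {l : LineSpace} (hl : l ∈ chart i) {M : ℝ}
    (hM : 0 ≤ M) {x₀ : ℝ} (h : ∀ x ∈ Icc x₀ (x₀ + M), pt i (slope i l) (icpt i l) x ∈ U) :
    ENNReal.ofReal M ≤ μH[1] (pointSet l ∩ U) :=
  le_hausdorff i _ (slope i l) (icpt i l) x₀ M hM fun x hx => ⟨pt_mem i l hl x, h x hx⟩

theorem seg_of_TT {η : ℕ → ℝ} {i : Fin 2} {l : LineSpace} {M : ℝ}
    (h : ∃ x₀ : ℝ, ∀ x ∈ Icc x₀ (x₀ + M), (x, slope i l * x + icpt i l) ∈ TT η) :
    Seg (EP η) i l M := by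
  obtain ⟨x₀, hx₀⟩ := h
  refine ⟨x₀, fun x hx => ?_⟩
  have h1 := hx₀ x hx
  have h2 := pt_self i (slope i l) (icpt i l) x
  have h3 := pt_other i (slope i l) (icpt i l) x
  fin_cases i
  · right
    change ((pt 0 (slope 0 l) (icpt 0 l) x) 1, (pt 0 (slope 0 l) (icpt 0 l) x) 0) ∈ TT η
    simp only [Fin.zero_eta, Fin.isValue, sub_zero] at h1 h2 h3
    rw [h2, h3]
    exact h1
  · left
    change ((pt 1 (slope 1 l) (icpt 1 l) x) 0, (pt 1 (slope 1 l) (icpt 1 l) x) 1) ∈ TT η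
    simp only [Fin.mk_one, Fin.isValue, sub_self] at h1 h2 h3
    rw [h2, h3]
    exact h1

theorem ext_chart (i : Fin 2) {l l' : LineSpace} (hl : l ∈ chart i) (hl' : l' ∈ chart i)
    (h1 : slope i l = slope i l') (h2 : icpt i l = icpt i l') : l = l' := by
  induction l using Quotient.inductionOn with
  | _ d =>
  induction l' using Quotient.inductionOn with
  | _ d' =>
    have hd : (d.1 : Plane) i ≠ 0 := hl
    have hd' : (d'.1 : Plane) i ≠ 0 := hl'
    have e1 : -((d.1 : Plane) (1 - i) / (d.1 : Plane) i) =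
        -((d'.1 : Plane) (1 - i) / (d'.1 : Plane) i) := h1
    have e2 : d.2 / (d.1 : Plane) i = d'.2 / (d'.1 : Plane) i := h2
    apply Quotient.sound
    change d' = d ∨ d' = -d
    set c := (d'.1 : Plane) i / (d.1 : Plane) i with hc
    have c1 : (d'.1 : Plane) i = c * (d.1 : Plane) i := by
      rw [hc]
      field_simp
    have c2 : (d'.1 : Plane) (1 - i) = c * (d.1 : Plane) (1 - i) := by
      rw [neg_inj, div_eq_div_iff hd hd'] at e1
      rw [hc]
      field_simp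
      linarith
    have c3 : d'.2 = c * d.2 := by
      rw [div_eq_div_iff hd hd'] at e2
      rw [hc]
      field_simp
      linarith
    have hvec : (d'.1 : Plane) = c • (d.1 : Plane) := by
      ext j
      rw [PiLp.smul_apply, smul_eq_mul]
      have hj : j = i ∨ j = 1 - i := by
        fin_cases i <;> fin_cases j <;> simp
      rcases hj with hj | hj
      · rw [hj]
        exact c1
      · rw [hj]
        exact c2
    have hn : ‖(d.1 : Plane)‖ = 1 := mem_sphere_zero_iff_norm.1 d.1.2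
    have hn' : ‖(d'.1 : Plane)‖ = 1 := mem_sphere_zero_iff_norm.1 d'.1.2
    rw [hvec, norm_smul, hn, mul_one, Real.norm_eq_abs] at hn'
    rcases (abs_eq zero_le_one).1 hn' with h | h
    · left
      refine Prod.ext (Subtype.ext ?_) ?_
      · rw [hvec, h, one_smul]
      · rw [c3, h, one_mul]
    · right
      refine Prod.ext (Subtype.ext ?_) ?_
      · rw [hvec, h, neg_one_smul]
        rfl
      · rw [c3, h, neg_one_mul]
        rfl

theorem isOpen_ne_line (l : LineSpace) : IsOpen {l' : LineSpace | l' ≠ l} := by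
  rw [← isQuotientMap_mk.isOpen_preimage]
  induction l using Quotient.inductionOn with
  | _ d =>
    have h1 : (Quotient.mk lineSetoid) ⁻¹' {l' : LineSpace | l' ≠ Quotient.mk lineSetoid d} =
        ({d, -d} : Set NormalForm)ᶜ := by
      ext d'
      rw [mem_preimage, mem_ofPred_eq, mem_compl_iff, mem_insert_iff, mem_singleton_iff, ne_eq,
        not_iff_not, Quotient.eq]
      change (d = d' ∨ d = -d') ↔ _
      constructor
      · rintro (h | h)
        · exact Or.inl h.symm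
        · right
          rw [h, neg_neg]
      · rintro (h | h)
        · exact Or.inl h.symm
        · right
          rw [h, neg_neg]
    rw [h1]
    exact (Set.toFinite _).isClosed.isOpen_compl

/-- a path of lines is not constant on an interval -/
def NCI (L : ℝ → LineSpace) (a b : ℝ) : Prop := ∃ s ∈ Ioo a b, ∃ t ∈ Ioo a b, L s ≠ L t

theorem adjust {L : ℝ → LineSpace} {α β : ℝ} (hL : ContinuousOn L (Ioo α β))
    (hN : NCI L α β) {t₁ : ℝ} (ht₁ : t₁ ∈ Ioo α β) :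
    ∃ t₂ ∈ Ioo α β, L t₂ = L t₁ ∧ ¬ ∀ᶠ s in 𝓝 t₂, L s = L t₂ := by
  by_contra hcon
  push Not at hcon
  have hP : ∀ x ∈ Ioo α β, ∀ y ∈ Ioo α β, (L x = L t₁ ↔ L y = L t₁) := by
    intro x hx y hy
    refine isPreconnected_Ioo.induction₂ (fun x y => (L x = L t₁ ↔ L y = L t₁)) ?_ ?_ ?_ hx hy
    · intro z hz
      apply Filter.Eventually.filter_mono nhdsWithin_le_nhds
      by_cases h : L z = L t₁
      · filter_upwards [hcon z hz h] with s hs
        rw [hs]
      · have h1 : ContinuousAt L z := hL.continuousAt (isOpen_Ioo.mem_nhds hz)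
        filter_upwards [h1.eventually ((isOpen_ne_line (L t₁)).mem_nhds h)] with s hs
        exact ⟨fun h' => absurd h' h, fun h' => absurd h' hs⟩
    · intro _ _ _ _ _ _ h1 h2
      exact h1.trans h2
    · intro _ _ _ _ h1
      exact h1.symm
  obtain ⟨s, hs, t, ht, hst⟩ := hN
  apply hst
  rw [(hP t₁ ht₁ s hs).1 rfl, (hP t₁ ht₁ t ht).1 rfl]

theorem crossing {η : ℕ → ℝ} (hη : ∀ k, 0 < η k) (k : ℕ) {L : ℝ → LineSpace} {α β : ℝ}
    (hL : ContinuousOn L (Ioo α β)) (hN : NCI L α β) :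
    ∃ t ∈ Ioo α β, ∃ i, L t ∈ chart i ∧ Seg (EP η) i (L t) (k + 1) := by
  obtain ⟨s₀, hs₀, -⟩ := id hN
  obtain ⟨t₀, ht₀, -, hnc⟩ := adjust hL hN hs₀
  obtain ⟨i, hi⟩ := exists_chart (L t₀)
  have hopen : IsOpen (Ioo α β ∩ L ⁻¹' (chart i)) :=
    hL.isOpen_inter_preimage isOpen_Ioo (isOpen_chart i)
  obtain ⟨ρ, hρ, hball⟩ := Metric.isOpen_iff.mp hopen t₀ ⟨ht₀, hi⟩
  rw [Real.ball_eq_Ioo] at hball
  have hLs : ContinuousOn L (Ioo (t₀ - ρ) (t₀ + ρ)) := hL.mono fun t ht => (hball ht).1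
  have hmaps : MapsTo L (Ioo (t₀ - ρ) (t₀ + ρ)) (chart i) := fun t ht => (hball ht).2
  by_contra hcon
  push Not at hcon
  apply hnc
  have hk : (0 : ℝ) < (k : ℝ) + 1 := by positivity
  have hc := core' (k + 1) (η k) hk (hη k) (fun t => slope i (L t)) (fun t => icpt i (L t))
    (t₀ - ρ) (t₀ + ρ) ((continuousOn_slope i).comp hLs hmaps)
    ((continuousOn_icpt i).comp hLs hmaps) (by
      rintro t ht ⟨x₀, hx₀⟩
      exact hcon t (hball ht).1 i (hmaps ht)
        (seg_of_TT ⟨x₀, fun x hx => mem_iUnion.2 ⟨k, hx₀ x hx⟩⟩))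
  have h0 : t₀ ∈ Ioo (t₀ - ρ) (t₀ + ρ) := ⟨by linarith, by linarith⟩
  filter_upwards [isOpen_Ioo.mem_nhds h0] with s hs
  obtain ⟨e1, e2⟩ := hc s hs t₀ h0
  exact ext_chart i (hmaps hs) (hmaps h0) e1 e2

theorem persist {U : Set Plane} (hU : IsOpen U) {L : ℝ → LineSpace} {t : ℝ}
    (hL : ContinuousAt L t) {i : Fin 2} (hi : L t ∈ chart i) {M : ℝ} (hM : 0 ≤ M)
    (h : Seg U i (L t) M) :
    ∀ᶠ s in 𝓝 t, ENNReal.ofReal M ≤ μH[1] (pointSet (L s) ∩ U) := by
  obtain ⟨x₀, hx₀⟩ := h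
  have h1 : ∀ᶠ s in 𝓝 t, L s ∈ chart i := hL.eventually ((isOpen_chart i).mem_nhds hi)
  have hs : ContinuousAt (fun s => slope i (L s)) t :=
    ((continuousOn_slope i).continuousAt ((isOpen_chart i).mem_nhds hi)).comp hL
  have hc : ContinuousAt (fun s => icpt i (L s)) t :=
    ((continuousOn_icpt i).continuousAt ((isOpen_chart i).mem_nhds hi)).comp hL
  have h2 : ∀ᶠ s in 𝓝 t, ∀ x ∈ Icc x₀ (x₀ + M), pt i (slope i (L s)) (icpt i (L s)) x ∈ U := by
    refine isCompact_Icc.eventually_forall_of_forall_eventually fun x hx => ?_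
    have h3 : ContinuousAt (fun z : ℝ × ℝ => pt i (slope i (L z.1)) (icpt i (L z.1)) z.2)
        (t, x) := by
      have h4 : ContinuousAt (fun z : ℝ × ℝ => ((slope i (L z.1), icpt i (L z.1)), z.2))
          (t, x) := by
        refine ContinuousAt.prodMk (ContinuousAt.prodMk ?_ ?_) continuousAt_snd
        · exact ContinuousAt.comp (f := Prod.fst) (x := (t, x)) hs continuousAt_fst
        · exact ContinuousAt.comp (f := Prod.fst) (x := (t, x)) hc continuousAt_fst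
      exact (continuous_pt i).continuousAt.comp h4
    exact h3.eventually (hU.mem_nhds (hx₀ x hx))
  filter_upwards [h1, h2] with s hs1 hs2
  exact le_of_seg hs1 hM hs2

theorem step {η : ℕ → ℝ} (hη : ∀ k, 0 < η k) {U : Set Plane} (hU : IsOpen U)
    (hEU : EP η ⊆ U) (k : ℕ) {L : ℝ → LineSpace} {α β : ℝ}
    (hL : ContinuousOn L (Ioo α β)) (hN : NCI L α β) :
    ∃ a b : ℝ, α < a ∧ b < β ∧ NCI L a b ∧
      ∀ t ∈ Icc a b, ENNReal.ofReal (k + 1) ≤ μH[1] (pointSet (L t) ∩ U) := by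
  obtain ⟨t₁, ht₁, i, hi, hseg⟩ := crossing hη k hL hN
  obtain ⟨t₂, ht₂, he, hnc⟩ := adjust hL hN ht₁
  rw [← he] at hi hseg
  have hk : (0 : ℝ) ≤ (k : ℝ) + 1 := by positivity
  have hseg' : Seg U i (L t₂) (k + 1) := by
    obtain ⟨x₀, hx₀⟩ := hseg
    exact ⟨x₀, fun x hx => hEU (hx₀ x hx)⟩
  have h1 := persist hU (hL.continuousAt (isOpen_Ioo.mem_nhds ht₂)) hi hk hseg'
  have h2 := h1.and (isOpen_Ioo.mem_nhds ht₂)
  obtain ⟨ρ, hρ, hball⟩ := Metric.mem_nhds_iff.1 h2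
  rw [Real.ball_eq_Ioo] at hball
  refine ⟨t₂ - ρ / 2, t₂ + ρ / 2, ?_, ?_, ?_, ?_⟩
  · exact (hball (show t₂ - ρ / 2 ∈ Ioo (t₂ - ρ) (t₂ + ρ) from
      ⟨by linarith, by linarith⟩)).2.1
  · exact (hball (show t₂ + ρ / 2 ∈ Ioo (t₂ - ρ) (t₂ + ρ) from
      ⟨by linarith, by linarith⟩)).2.2
  · by_contra hcon
    apply hnc
    have h0 : t₂ ∈ Ioo (t₂ - ρ / 2) (t₂ + ρ / 2) := ⟨by linarith, by linarith⟩
    filter_upwards [isOpen_Ioo.mem_nhds h0] with s hs
    by_contra hne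
    exact hcon ⟨s, hs, t₂, h0, hne⟩
  · intro t ht
    exact (hball (show t ∈ Ioo (t₂ - ρ) (t₂ + ρ) from
      ⟨by linarith [ht.1], by linarith [ht.2]⟩)).1

/-- every nonconstant path of lines contains a line meeting the open set in infinite length -/
theorem infinite {η : ℕ → ℝ} (hη : ∀ k, 0 < η k) {U : Set Plane} (hU : IsOpen U)
    (hEU : EP η ⊆ U) {L : ℝ → LineSpace} {α β : ℝ}
    (hL : ContinuousOn L (Ioo α β)) (hN : NCI L α β) :
    ∃ t ∈ Ioo α β, μH[1] (pointSet (L t) ∩ U) = ∞ := by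
  let St : Type := {p : ℝ × ℝ // α ≤ p.1 ∧ p.2 ≤ β ∧ NCI L p.1 p.2}
  have hstep : ∀ (k : ℕ) (p : St), ∃ q : St, p.1.1 < q.1.1 ∧ q.1.2 < p.1.2 ∧
      ∀ t ∈ Icc q.1.1 q.1.2, ENNReal.ofReal (k + 1) ≤ μH[1] (pointSet (L t) ∩ U) := by
    intro k p
    obtain ⟨a, b, ha, hb, hab, h⟩ := step hη hU hEU k
      (hL.mono (Ioo_subset_Ioo p.2.1 p.2.2.1)) p.2.2.2
    exact ⟨⟨(a, b), p.2.1.trans ha.le, hb.le.trans p.2.2.1, hab⟩, ha, hb, h⟩
  choose f hf1 hf2 hf3 using hstep
  let p₀ : St := ⟨(α, β), le_rfl, le_rfl, hN⟩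
  let sq : ℕ → St := fun n => Nat.rec p₀ (fun k p => f k p) n
  have hsq : ∀ n, sq (n + 1) = f n (sq n) := fun n => rfl
  have hne : ∀ n, (Icc (sq (n + 1)).1.1 (sq (n + 1)).1.2).Nonempty := by
    intro n
    obtain ⟨s, hs, -⟩ := (sq (n + 1)).2.2.2
    exact ⟨s, hs.1.le, hs.2.le⟩
  obtain ⟨t, ht⟩ := IsCompact.nonempty_iInter_of_sequence_nonempty_isCompact_isClosed
    (fun n => Icc (sq (n + 1)).1.1 (sq (n + 1)).1.2)
    (fun n => Icc_subset_Icc
      (by rw [hsq (n + 1)]; exact (hf1 (n + 1) (sq (n + 1))).le)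
      (by rw [hsq (n + 1)]; exact (hf2 (n + 1) (sq (n + 1))).le))
    hne isCompact_Icc (fun n => isClosed_Icc)
  rw [mem_iInter] at ht
  refine ⟨t, ⟨?_, ?_⟩, ?_⟩
  · have h1 := (ht 0).1
    have h2 := hf1 0 (sq 0)
    rw [← hsq 0] at h2
    exact lt_of_lt_of_le h2 h1
  · have h1 := (ht 0).2
    have h2 := hf2 0 (sq 0)
    rw [← hsq 0] at h2
    exact lt_of_le_of_lt h1 h2
  · apply ENNReal.eq_top_of_forall_nnreal_le
    intro r
    obtain ⟨n, hn⟩ := exists_nat_ge (r : ℝ)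
    have h1 := hf3 n (sq n) t (by rw [← hsq n]; exact ht n)
    refine le_trans ?_ h1
    rw [← ENNReal.ofReal_coe_nnreal]
    exact ENNReal.ofReal_le_ofReal (by linarith)

theorem EP_nonempty (η : ℕ → ℝ) (hη : ∀ k, 0 < η k) : (EP η).Nonempty := by
  obtain ⟨p, hp⟩ := nonempty_of_measure_ne_zero volume_SS_pos.ne'
  refine ⟨pt 1 0 (p.2 * η 0) p.1, Or.inl ?_⟩
  have h2 := pt_self 1 0 (p.2 * η 0) p.1
  have h3 := pt_other 1 0 (p.2 * η 0) p.1
  rw [sub_self] at h3
  change ((pt 1 0 (p.2 * η 0) p.1) 0, (pt 1 0 (p.2 * η 0) p.1) 1) ∈ TT η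
  rw [h2, h3]
  refine mem_iUnion.2 ⟨0, ?_⟩
  have h4 := (hη 0).ne'
  change (p.1 / (((0 : ℕ) : ℝ) + 1), (0 * p.1 + p.2 * η 0) / η 0) ∈ SS
  have e1 : p.1 / (((0 : ℕ) : ℝ) + 1) = p.1 := by
    rw [Nat.cast_zero, zero_add, div_one]
  have e2 : (0 * p.1 + p.2 * η 0) / η 0 = p.2 := by
    field_simp
    ring
  rw [e1, e2]
  exact hp

/-- the open sets -/
theorem exists_open (F : Set Plane) (hF : NullMeasurableSet F) (hF' : volume F < ∞) (ε : ℝ≥0∞)
    (hε : ε ≠ 0) :
    ∃ E : Set Plane, IsOpen E ∧ F ⊆ E ∧ volume (E \ F) < ε ∧ 0 < volume E ∧ volume E < ∞ ∧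
      ∀ (α β : ℝ) (L : ℝ → LineSpace), ContinuousOn L (Ioo α β) → NCI L α β →
        ∃ t ∈ Ioo α β, μH[1] (pointSet (L t) ∩ E) = ∞ := by
  have hε2 : ε / 2 ≠ 0 := (ENNReal.half_pos hε).ne'
  have hε4 : min (ε / 2) 1 ≠ 0 := (lt_min (ENNReal.half_pos hε) one_pos).ne'
  obtain ⟨η, hη, hvol⟩ := exists_heights (min (ε / 2) 1) hε4
  have hvol1 : volume (EP η) < ε / 2 := hvol.trans_le (min_le_left _ _)
  have hvol2 : volume (EP η) < ∞ := hvol.trans_le ((min_le_right _ _).trans le_top)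
  set F' := toMeasurable volume F with hF'def
  have hFm : MeasurableSet F' := measurableSet_toMeasurable _ _
  have hFF : F ⊆ F' := subset_toMeasurable _ _
  have hFv : volume F' = volume F := measure_toMeasurable _
  have hdiff : volume (F' \ F) = 0 := ae_le_set.1 hF.toMeasurable_ae_eq.le
  have hAm : MeasurableSet (F' ∪ EP η) := hFm.union (measurableSet_EP η)
  have hA : volume (F' ∪ EP η) ≠ ∞ := by
    refine ((measure_union_le _ _).trans_lt (ENNReal.add_lt_top.2 ⟨?_, hvol2⟩)).ne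
    rw [hFv]
    exact hF'
  obtain ⟨U, hAU, hUo, hUv, hUd⟩ := hAm.exists_isOpen_sdiff_lt hA hε2
  have hEU : EP η ⊆ U := subset_union_right.trans hAU
  refine ⟨U, hUo, hFF.trans (subset_union_left.trans hAU), ?_, ?_, hUv, ?_⟩
  · have h1 : U \ F ⊆ (U \ (F' ∪ EP η)) ∪ (EP η ∪ (F' \ F)) := by
      intro x hx
      by_cases h2 : x ∈ F'
      · exact Or.inr (Or.inr ⟨h2, hx.2⟩)
      · by_cases h3 : x ∈ EP η
        · exact Or.inr (Or.inl h3)
        · exact Or.inl ⟨hx.1, fun h => h.elim h2 h3⟩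
    refine (measure_mono h1).trans_lt ?_
    refine (measure_union_le _ _).trans_lt ?_
    have h2 : volume (EP η ∪ (F' \ F)) ≤ volume (EP η) := by
      refine (measure_union_le _ _).trans ?_
      rw [hdiff, add_zero]
    have h3 := ENNReal.add_lt_add hUd (h2.trans_lt hvol1)
    rwa [ENNReal.add_halves] at h3
  · exact hUo.measure_pos volume ((EP_nonempty η hη).mono hEU)
  · intro α β L hL hN
    exact infinite hη hUo hEU hL hN

end Pool.Agent.Y574.CL
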